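import Pool.Agent.H741.EL.Stm

/-!
Project EL (helper741), part ELL: elementary facts on the ellipse (helper124).
-/

set_option autoImplicit false
open MeasureTheory Metric Set Filter Topology

namespace Pool.Agent.H741.EL
open Pool.Agent.Y508

namespace ELL

/-- the quadratic form of the ellipse -/
noncomputable def g (a b : ℝ) (x : E2) : ℝ := (x 0 / a) ^ 2 + (x 1 / b) ^ 2

theorem g_cont (a b : ℝ) : Continuous (g a b) := by
  unfold g
  fun_prop

theorem g_comb (a b t : ℝ) (x y : E2) : g a b ((1 - t) • x + t • y) =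
    (1 - t) * g a b x + t * g a b y - t * (1 - t) * g a b (x - y) := by
  simp only [g, PiLp.add_apply, PiLp.smul_apply, PiLp.sub_apply, smul_eq_mul]
  ring

theorem g_smul (a b s : ℝ) (x : E2) : g a b (s • x) = s ^ 2 * g a b x := by
  simp only [g, PiLp.smul_apply, smul_eq_mul]
  ring

theorem g_nonneg (a b : ℝ) (x : E2) : 0 ≤ g a b x := by
  unfold g
  positivity

theorem g_pos {a b : ℝ} (ha : 0 < a) (hb : 0 < b) {x : E2} (hx : x ≠ 0) : 0 < g a b x := by
  refine lt_of_le_of_ne (g_nonneg a b x) fun h => hx ?_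
  have h1 : (x 0 / a) ^ 2 + (x 1 / b) ^ 2 = 0 := h.symm
  have h2 : (x 0 / a) ^ 2 = 0 := by nlinarith [sq_nonneg (x 0 / a), sq_nonneg (x 1 / b)]
  have h3 : (x 1 / b) ^ 2 = 0 := by nlinarith [sq_nonneg (x 0 / a), sq_nonneg (x 1 / b)]
  have h4 : x 0 = 0 := by
    have := pow_eq_zero_iff (two_ne_zero) |>.1 h2
    rcases div_eq_zero_iff.1 this with h | h
    · exact h
    · exact absurd h ha.ne'
  have h5 : x 1 = 0 := by
    have := pow_eq_zero_iff (two_ne_zero) |>.1 h3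
    rcases div_eq_zero_iff.1 this with h | h
    · exact h
    · exact absurd h hb.ne'
  ext i
  fin_cases i
  · exact h4
  · exact h5

theorem hE_sq (a b θ : ℝ) : hE a b θ ^ 2 = a ^ 2 * Real.cos θ ^ 2 + b ^ 2 * Real.sin θ ^ 2 :=
  Real.sq_sqrt (by positivity)

theorem b_le {a b : ℝ} (hb : 0 < b) (hab : b ≤ a) (θ : ℝ) : b ≤ hE a b θ := by
  refine Real.le_sqrt_of_sq_le ?_
  have h1 := Real.sin_sq_add_cos_sq θ
  have h2 : b ^ 2 ≤ a ^ 2 := pow_le_pow_left₀ hb.le hab 2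
  nlinarith [mul_le_mul_of_nonneg_right h2 (sq_nonneg (Real.cos θ))]

theorem ip_le {a b : ℝ} (ha : 0 < a) (hb : 0 < b) (θ : ℝ) {x : E2} (hx : g a b x ≤ 1) :
    ip x θ ≤ hE a b θ := by
  refine Real.le_sqrt_of_sq_le ?_
  have e : ip x θ = (x 0 / a) * (a * Real.cos θ) + (x 1 / b) * (b * Real.sin θ) := by
    unfold ip
    field_simp
  have h1 : ip x θ ^ 2 ≤ g a b x * (a ^ 2 * Real.cos θ ^ 2 + b ^ 2 * Real.sin θ ^ 2) := by
    rw [e]
    unfold g
    nlinarith [sq_nonneg ((x 0 / a) * (b * Real.sin θ) - (x 1 / b) * (a * Real.cos θ))]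
  have h2 : 0 ≤ a ^ 2 * Real.cos θ ^ 2 + b ^ 2 * Real.sin θ ^ 2 := by positivity
  calc ip x θ ^ 2 ≤ g a b x * (a ^ 2 * Real.cos θ ^ 2 + b ^ 2 * Real.sin θ ^ 2) := h1
    _ ≤ 1 * (a ^ 2 * Real.cos θ ^ 2 + b ^ 2 * Real.sin θ ^ 2) :=
        mul_le_mul_of_nonneg_right hx h2
    _ = _ := one_mul _

theorem g_qE {a b : ℝ} (hb : 0 < b) (hab : b ≤ a) (θ : ℝ) : g a b (qE a b θ) = 1 := by
  have hh : 0 < hE a b θ := lt_of_lt_of_le hb (b_le hb hab θ)
  have ha : 0 < a := lt_of_lt_of_le hb hab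
  have h1 := hE_sq a b θ
  have h2 : g a b (qE a b θ) = (a ^ 2 * Real.cos θ ^ 2 + b ^ 2 * Real.sin θ ^ 2) /
      hE a b θ ^ 2 := by
    unfold g qE
    rw [pt_zero, pt_one]
    field_simp
  rw [h2, ← h1]
  exact div_self (pow_ne_zero 2 hh.ne')

theorem ip_qE {a b : ℝ} (hb : 0 < b) (hab : b ≤ a) (θ : ℝ) : ip (qE a b θ) θ = hE a b θ := by
  have hh : 0 < hE a b θ := lt_of_lt_of_le hb (b_le hb hab θ)
  have h1 := hE_sq a b θ
  have h2 : ip (qE a b θ) θ = (a ^ 2 * Real.cos θ ^ 2 + b ^ 2 * Real.sin θ ^ 2) /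
      hE a b θ := by
    unfold ip qE
    rw [pt_zero, pt_one]
    ring
  rw [h2, ← h1, sq]
  exact mul_div_cancel_right₀ _ hh.ne'

theorem vol {a b : ℝ} (ha : 0 < a) (hb : 0 < b) :
    volume (Ell a b) = ENNReal.ofReal (Real.pi * a * b) := by
  let B := (EuclideanSpace.basisFun (Fin 2) ℝ).toBasis
  let f : E2 →ₗ[ℝ] E2 := Matrix.toLin B B (Matrix.diagonal ![1 / a, 1 / b])
  have hf : ∀ x : E2, ∀ i, f x i = (![1 / a, 1 / b] : Fin 2 → ℝ) i * x i := by
    intro x i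
    have h1 : B.repr (f x) = Matrix.mulVec (Matrix.diagonal ![1 / a, 1 / b]) (B.repr x) :=
      (Matrix.repr_toLin _ _ _ _)
    have h2 := congrFun h1 i
    rw [Matrix.mulVec_diagonal] at h2
    exact h2
  have hdet : LinearMap.det f = (1 / a) * (1 / b) := by
    show LinearMap.det (Matrix.toLin B B (Matrix.diagonal ![1 / a, 1 / b])) = _
    rw [LinearMap.det_toLin, Matrix.det_diagonal, Fin.prod_univ_two]
    rfl
  have hdet0 : LinearMap.det f ≠ 0 := by
    rw [hdet]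
    positivity
  have hpre : Ell a b = f ⁻¹' (closedBall (0 : E2) 1) := by
    ext x
    rw [mem_preimage, mem_closedBall_zero_iff]
    have h3 : ‖f x‖ ^ 2 = (x 0 / a) ^ 2 + (x 1 / b) ^ 2 := by
      rw [norm_sq_E2, hf, hf]
      show ((1 / a) * x 0) ^ 2 + ((1 / b) * x 1) ^ 2 = _
      ring
    show (x 0 / a) ^ 2 + (x 1 / b) ^ 2 ≤ 1 ↔ _
    rw [← h3]
    exact (sq_le_one_iff₀ (norm_nonneg _))
  rw [hpre, Measure.addHaar_preimage_linearMap _ hdet0, hdet,
    EuclideanSpace.volume_closedBall_fin_two]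
  have e1 : |((1 / a) * (1 / b))⁻¹| = a * b := by
    rw [abs_of_pos (by positivity)]
    field_simp
  rw [e1, ENNReal.ofReal_one, one_pow, one_mul]
  rw [← ENNReal.ofReal_mul (by positivity)]
  congr 1
  ring

end ELL

theorem t_ELL : S_ELL := by
  intro a b hb hab
  have ha : 0 < a := lt_of_lt_of_le hb hab
  have hmE : ∀ x, x ∈ Ell a b ↔ ELL.g a b x ≤ 1 := fun x => Iff.rfl
  have hmI : ∀ x, x ∈ inE a b ↔ ELL.g a b x < 1 := fun x => Iff.rfl
  have hopen : IsOpen (inE a b) := isOpen_lt (ELL.g_cont a b) continuous_const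
  have hclosed : IsClosed (Ell a b) := isClosed_le (ELL.g_cont a b) continuous_const
  have hsub : inE a b ⊆ Ell a b := fun x hx => (hmE x).2 (le_of_lt ((hmI x).1 hx))
  have hint : interior (Ell a b) = inE a b := by
    refine Subset.antisymm ?_ (interior_maximal hsub hopen)
    intro x hx
    rw [hmI]
    obtain ⟨ε, hε, hball⟩ := Metric.mem_nhds_iff.1 (mem_interior_iff_mem_nhds.1 hx)
    by_contra hcon
    rw [not_lt] at hcon
    have hδ : 0 < ε / (‖x‖ + 1) := by positivity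
    have hmem : (1 + ε / (‖x‖ + 1) / 2) • x ∈ ball x ε := by
      rw [mem_ball, dist_eq_norm, add_smul, one_smul, add_sub_cancel_left, norm_smul,
        Real.norm_of_nonneg (by positivity)]
      have h1 : ε / (‖x‖ + 1) * (‖x‖ + 1) = ε := div_mul_cancel₀ _ (by positivity)
      nlinarith [norm_nonneg x]
    have h2 := hball hmem
    rw [hmE, ELL.g_smul] at h2
    nlinarith
  have hcvx : Convex ℝ (Ell a b) := by
    intro x hx y hy s t hs ht hst
    have e : s = 1 - t := by linarith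
    subst e
    rw [hmE] at hx hy ⊢
    rw [ELL.g_comb]
    have h1 := ELL.g_nonneg a b (x - y)
    have h2 := mul_nonneg (mul_nonneg ht hs) h1
    nlinarith
  have hcpt : IsCompact (Ell a b) := by
    refine Metric.isCompact_of_isClosed_isBounded hclosed ?_
    refine (Metric.isBounded_closedBall (x := (0 : E2)) (r := a)).subset fun x hx => ?_
    rw [mem_closedBall_zero_iff]
    refine abs_le_of_sq_le_sq' ?_ ha.le |>.2
    rw [norm_sq_E2]
    have h1 : (x 0 / a) ^ 2 + (x 1 / b) ^ 2 ≤ 1 := hx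
    have h2 : x 0 ^ 2 = a ^ 2 * (x 0 / a) ^ 2 := by field_simp
    have h3 : x 1 ^ 2 = b ^ 2 * (x 1 / b) ^ 2 := by field_simp
    have h4 : b ^ 2 ≤ a ^ 2 := pow_le_pow_left₀ hb.le hab 2
    rw [h2, h3]
    nlinarith [mul_le_mul_of_nonneg_right h4 (sq_nonneg (x 1 / b)),
      mul_le_mul_of_nonneg_left h1 (sq_nonneg a)]
  have h0 : (0 : E2) ∈ inE a b := by
    rw [hmI]
    have : ELL.g a b 0 = 0 := by simp [ELL.g]
    rw [this]
    exact one_pos
  have hstrict : ∀ x ∈ Ell a b, ∀ y ∈ Ell a b, x ≠ y → ∀ t : ℝ, 0 < t → t < 1 →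
      (1 - t) • x + t • y ∈ inE a b := by
    intro x hx y hy hxy t ht ht1
    rw [hmE] at hx hy
    rw [hmI, ELL.g_comb]
    have h1 := ELL.g_pos ha hb (sub_ne_zero.2 hxy)
    have h2 : 0 < t * (1 - t) * ELL.g a b (x - y) := mul_pos (mul_pos ht (by linarith)) h1
    nlinarith
  refine ⟨⟨hcpt, hcvx, ?_⟩, hint, ?_, ELL.vol ha hb, ?_, fun θ => ELL.b_le hb hab θ, hstrict, ?_⟩
  · rw [hint]
    exact ⟨0, h0⟩
  · rw [frontier, hclosed.closure_eq, hint]
    ext x
    constructor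
    · rintro ⟨h1, h2⟩
      exact le_antisymm h1 (not_lt.1 h2)
    · intro h
      have h' : ELL.g a b x = 1 := h
      exact ⟨h'.le, fun h2 => absurd h' (ne_of_lt h2)⟩
  · intro θ
    have hq : qE a b θ ∈ Ell a b := (ELL.g_qE hb hab θ).le
    refine le_antisymm (hs_le ⟨0, hsub h0⟩ fun x hx => ELL.ip_le ha hb θ hx) ?_
    rw [← ELL.ip_qE hb hab θ]
    exact le_hs hcpt hq θ
  · intro x hx y hy t ht ht1
    rw [hmE] at hx
    rw [hmI] at hy ⊢
    rw [ELL.g_comb]
    have h1 := ELL.g_nonneg a b (x - y)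
    have h2 : 0 ≤ t * (1 - t) * ELL.g a b (x - y) :=
      mul_nonneg (mul_nonneg ht.le (by linarith)) h1
    nlinarith [mul_pos ht (sub_pos.2 hy), mul_nonneg (sub_nonneg.2 ht1) (sub_nonneg.2 hx)]

end Pool.Agent.H741.EL
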